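import Pool.Agent.Run7.h285.Q.Stm
import Pool.Agent.TH204.WR.W7

/-!
# Project CRQ (helper285), piece FLQ: the fundamental lemma for quadratic polynomials (helper824)
-/

set_option autoImplicit false

namespace Run7.h824.Q

open Finset Filter Topology
open Pool.Agent.H373R2.T7 (pz Vz lamz mem_pz Vz_pos)
open Pool.Agent.W468.ConjF (CF nr nr_odd nr_lin nr_none nr_two P eval_P natDegree_P)
open Pool.Agent.TH204.WR (rho flp)
open Run7.h285.Q (qv Loc S_FLQ)

lemma rho_P (a b c : ℤ) (p : ℕ) : rho (P a b c) 0 p = nr a b c p := by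
  unfold rho nr
  congr 1
  apply filter_congr
  intro r _
  rw [eval_P, add_zero]

lemma nr_lt {a b c : ℤ} (h : Loc a b c) {p : ℕ} (hp : p.Prime) : nr a b c p < p := by
  have h2 := hp.two_le
  by_cases hp2 : p = 2
  · subst hp2
    rw [nr_two a b c h.2]
    split_ifs <;> norm_num
  · have hp3 : 3 ≤ p := by omega
    by_cases ha : (p : ℤ) ∣ a
    · by_cases hb : (p : ℤ) ∣ b
      · rw [nr_none a b c p ha hb (h.1 p hp ha hb)]
        omega
      · rw [nr_lin a b c p hp ha hb]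
        omega
    · have h3 := nr_odd a b c p hp hp3 ha
      have h4 : jacobiSym (b ^ 2 - 4 * a * c) p ≤ 1 := by
        rcases jacobiSym.trichotomy (b ^ 2 - 4 * a * c) p with h | h | h <;> rw [h] <;> norm_num
      omega

/-- the Euler product -/
theorem prod_nr {a b c : ℤ} (h : Loc a b c) (w : ℕ) (hw : 2 ≤ w) :
    ∏ p ∈ pz w, (1 - (nr a b c p : ℝ) / p) = Vz w * (2 * CF a b c w) := by
  classical
  have hpz : pz w = (range (w + 1)).filter Nat.Prime := by
    ext p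
    rw [mem_pz, mem_filter, mem_range, Nat.lt_succ_iff]
  have hVd : Vz w = ∏ p ∈ (range (w + 1)).filter Nat.Prime, (1 - 1 / (p : ℝ)) := by
    rw [← hpz]; rfl
  rw [hVd, hpz]
  set S := (range (w + 1)).filter Nat.Prime with hS
  have h2S : 2 ∈ S := by
    rw [hS, mem_filter, mem_range]; exact ⟨by omega, Nat.prime_two⟩
  set S3 := S.filter (fun p => 3 ≤ p) with hS3
  have hSplit : S = insert 2 S3 := by
    ext p
    simp only [hS3, mem_insert, mem_filter]
    constructor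
    · intro hp
      by_cases h3 : 3 ≤ p
      · exact Or.inr ⟨hp, h3⟩
      · left
        have : p.Prime := (mem_filter.1 hp).2
        have := this.two_le
        omega
    · rintro (rfl | hp)
      · exact h2S
      · exact hp.1
  have hn2 : 2 ∉ S3 := by
    rw [hS3, mem_filter]; omega
  rw [hSplit, prod_insert hn2, prod_insert hn2]
  -- the factors at odd primes
  have fac : ∀ p ∈ S3, (1 - (nr a b c p : ℝ) / p) = (1 - 1 / (p : ℝ)) *
      ((if (p : ℤ) ∣ a ∧ (p : ℤ) ∣ b then (p : ℝ) / (p - 1) else 1) *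
      (if ¬ (p : ℤ) ∣ a then 1 - (jacobiSym (b ^ 2 - 4 * a * c) p : ℝ) / (p - 1) else 1)) := by
    intro p hp
    rw [hS3, mem_filter, hS, mem_filter] at hp
    obtain ⟨⟨-, hpp⟩, hp3⟩ := hp
    have hpr : (1 : ℝ) < p := by exact_mod_cast hpp.one_lt
    have hp0 : (p : ℝ) ≠ 0 := by positivity
    have hp1 : (p : ℝ) - 1 ≠ 0 := by linarith
    by_cases hpa : (p : ℤ) ∣ a
    · by_cases hpb : (p : ℤ) ∣ b
      · rw [if_pos ⟨hpa, hpb⟩, if_neg (not_not.2 hpa), nr_none a b c p hpa hpb (h.1 p hpp hpa hpb)]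
        simp only [Nat.cast_zero, zero_div, sub_zero, mul_one]
        field_simp
      · rw [if_neg (fun h => hpb h.2), if_neg (not_not.2 hpa), nr_lin a b c p hpp hpa hpb]
        simp only [Nat.cast_one, mul_one]
    · rw [if_neg (fun h => hpa h.1), if_pos hpa]
      have h3 := nr_odd a b c p hpp hp3 hpa
      have h4 : (nr a b c p : ℝ) = (jacobiSym (b ^ 2 - 4 * a * c) p : ℝ) + 1 := by exact_mod_cast h3
      rw [h4]
      field_simp
      ring
  rw [prod_congr rfl fac, prod_mul_distrib, prod_mul_distrib]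
  have e1 : ∏ p ∈ S3, (if (p : ℤ) ∣ a ∧ (p : ℤ) ∣ b then (p : ℝ) / (p - 1) else 1) =
      ∏ p ∈ (range (w + 1)).filter (fun p : ℕ => p.Prime ∧ 3 ≤ p ∧ (p : ℤ) ∣ a ∧ (p : ℤ) ∣ b), (p : ℝ) / (p - 1) := by
    rw [← prod_filter, hS3, hS, filter_filter, filter_filter]
  have e2 : ∏ p ∈ S3, (if ¬ (p : ℤ) ∣ a then 1 - (jacobiSym (b ^ 2 - 4 * a * c) p : ℝ) / (p - 1) else 1) =
      ∏ p ∈ (range (w + 1)).filter (fun p : ℕ => p.Prime ∧ 3 ≤ p ∧ ¬ (p : ℤ) ∣ a),
        (1 - (jacobiSym (b ^ 2 - 4 * a * c) p : ℝ) / (p - 1)) := by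
    rw [← prod_filter, hS3, hS, filter_filter, filter_filter]
  rw [e1, e2, nr_two a b c h.2]
  unfold CF
  split_ifs with hab
  · push_cast; ring
  · push_cast; ring

open Classical in
lemma lam_win (w : ℕ) (a b c : ℤ) (m H : ℕ) :
    ∑ n ∈ Ioc m (m + H), lamz w (qv a b c n).natAbs = (Vz w)⁻¹ *
      ((((Icc 1 H).filter (fun s : ℕ => ∀ p ∈ pz w, ¬ (p : ℤ) ∣ (P a b c).eval ((m : ℤ) + s) + 0)).card : ℕ) : ℝ) := by
  have h1 : ∑ i ∈ Ioc m (m + H), lamz w (qv a b c i).natAbs =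
      ∑ t ∈ Icc 1 H, lamz w (qv a b c (m + t)).natAbs := by
    refine sum_nbij' (fun i => i - m) (fun t => m + t) ?_ ?_ ?_ ?_ ?_
    · intro i hi
      rw [mem_Ioc] at hi; rw [mem_Icc]; omega
    · intro t ht
      rw [mem_Icc] at ht; rw [mem_Ioc]; omega
    · intro i hi
      rw [mem_Ioc] at hi; omega
    · intro t ht
      omega
    · intro i hi
      rw [mem_Ioc] at hi
      show lamz w (qv a b c i).natAbs = lamz w (qv a b c (m + (i - m))).natAbs
      rw [show m + (i - m) = i by omega]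
  rw [h1, card_filter]
  push_cast
  rw [mul_sum]
  refine sum_congr rfl fun t _ => ?_
  unfold lamz
  have h2 : (∀ p ∈ pz w, ¬ p ∣ (qv a b c (m + t)).natAbs) ↔
      (∀ p ∈ pz w, ¬ (p : ℤ) ∣ (P a b c).eval ((m : ℤ) + t) + 0) := by
    have h3 : ∀ p : ℕ, (p ∣ (qv a b c (m + t)).natAbs) ↔ ((p : ℤ) ∣ (P a b c).eval ((m : ℤ) + t) + 0) := by
      intro p
      rw [← Int.natCast_dvd, eval_P, add_zero]
      unfold qv
      push_cast
      exact Iff.rfl
    constructor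
    · intro h p hp hd
      exact h p hp ((h3 p).2 hd)
    · intro h p hp hd
      exact h p hp ((h3 p).1 hd)
  by_cases h4 : ∀ p ∈ pz w, ¬ p ∣ (qv a b c (m + t)).natAbs
  · rw [if_pos h4, if_pos (h2.1 h4), mul_one]
  · rw [if_neg h4, if_neg (fun h => h4 (h2.2 h)), mul_zero]

/-- **FLQ.** -/
theorem t_FLQ : S_FLQ := by
  classical
  obtain ⟨C1, y0, hC1, hy0, h⟩ := flp 2 (by norm_num)
  refine ⟨C1, y0, hC1, hy0, fun k hk w hw H hH a b c m ha hL => ?_⟩
  have hV := Vz_pos w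
  have hrho : ∀ p ∈ pz w, rho (P a b c) 0 p < p := by
    intro p hp
    rw [rho_P]
    exact nr_lt hL (mem_pz.1 hp).2
  have h1 := h (P a b c) 0 (natDegree_P a b c ha).le k hk w hw hrho H hH m
  have hprod : ∏ p ∈ pz w, (1 - (rho (P a b c) 0 p : ℝ) / p) = Vz w * (2 * CF a b c w) := by
    rw [← prod_nr hL w (hy0.trans hw)]
    exact prod_congr rfl fun p _ => by rw [rho_P]
  rw [hprod] at h1
  rw [lam_win]
  set cd : ℝ := ((((Icc 1 H).filter (fun s : ℕ => ∀ p ∈ pz w,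
    ¬ (p : ℤ) ∣ (P a b c).eval ((m : ℤ) + s) + 0)).card : ℕ) : ℝ) with hcd
  have h2 : |cd - H * (Vz w * (2 * CF a b c w))| ≤
      2 * (1 / 2 : ℝ) ^ k * (H * (Vz w * (2 * CF a b c w))) := by
    rw [hcd]; convert h1 using 6
  have e : (Vz w)⁻¹ * cd - H * (2 * CF a b c w) = (Vz w)⁻¹ * (cd - H * (Vz w * (2 * CF a b c w))) := by
    field_simp
  rw [e, abs_mul, abs_of_pos (inv_pos.2 hV)]
  calc (Vz w)⁻¹ * |cd - H * (Vz w * (2 * CF a b c w))|
      ≤ (Vz w)⁻¹ * (2 * (1 / 2 : ℝ) ^ k * (H * (Vz w * (2 * CF a b c w)))) :=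
        mul_le_mul_of_nonneg_left h2 (inv_nonneg.2 hV.le)
    _ = _ := by field_simp

end Run7.h824.Q
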