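import Pool.Agent.Run7.h285.Q.Stm
import Pool.Agent.R460.SC.Cm
import Pool.Agent.TH892.OW.B7

/-!
The constant of the quadratic polynomials `a n² + b n + c` for most pairs `(b, c)` (piece HGQ of project CRQ, helper285).
-/

set_option autoImplicit false

namespace Run7.h824.Q

open Finset Filter Topology
open Run7.h285.Q (S_HGQ)
open Pool.Agent.W468.ConjF
open Pool.Agent.TH892
open Pool.Agent.TH892.OW (evt_ll)
open Pool.Agent.H442R2.EHI (evt_log_pow evt_log_ge)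

/-- the sum over the common prime factors of `a` and `b` -/
noncomputable def SB (a b : ℤ) (z Z : ℕ) : ℝ :=
  ∑ p ∈ (Ioc z Z).filter (fun p : ℕ => p.Prime ∧ (p : ℤ) ∣ a ∧ (p : ℤ) ∣ b), 1 / ((p : ℝ) - 1)

lemma SB_nonneg (a b : ℤ) (z Z : ℕ) : 0 ≤ SB a b z Z := by
  refine sum_nonneg fun p hp => ?_
  rw [mem_filter] at hp
  have : (2 : ℝ) ≤ p := by exact_mod_cast hp.2.1.two_le
  apply div_nonneg zero_le_one
  linarith

/-- the middle range -/
lemma cf_mid (a b c : ℤ) (z Z : ℕ) (hz : 2 ≤ z) (hzZ : z ≤ Z) :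
    |Real.log (CF a b c Z) - Real.log (CF a b c z)| ≤
      |LOW a (b ^ 2 - 4 * a * c) z Z| + 12 / z + SB a b z Z := by
  classical
  rw [log_CF_sub a b c z Z hzZ]
  set D := b ^ 2 - 4 * a * c with hD
  have hz0 : (0:ℝ) < z := by exact_mod_cast (by omega : 0 < z)
  have hpt : ∀ p ∈ Ioc z Z, |hh a b c p + (if p.Prime ∧ ¬ (p : ℤ) ∣ a then (jacobiSym D p : ℝ) / p else 0)| ≤
      12 * (1 / (p : ℝ) ^ 2) + (if p.Prime ∧ (p : ℤ) ∣ a ∧ (p : ℤ) ∣ b then 1 / ((p : ℝ) - 1) else 0) := by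
    intro p hp
    rw [mem_Ioc] at hp
    have hp3 : 3 ≤ p := by omega
    have hpr : (3:ℝ) ≤ p := by exact_mod_cast hp3
    have hpos : 0 ≤ 12 * (1 / (p : ℝ) ^ 2) := by positivity
    unfold hh
    rw [← hD]
    by_cases hpp : p.Prime
    · by_cases hpa : (p : ℤ) ∣ a
      · by_cases hpb : (p : ℤ) ∣ b
        · rw [if_pos ⟨hpp, hp3, hpa, hpb⟩, if_neg (fun h => h.2.2 hpa), if_neg (fun h => h.2 hpa),
            if_pos ⟨hpp, hpa, hpb⟩, add_zero, add_zero]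
          have h1 : 0 ≤ Real.log ((p : ℝ) / (p - 1)) := by
            apply Real.log_nonneg
            rw [le_div_iff₀ (by linarith)]; linarith
          have h2 : Real.log ((p : ℝ) / (p - 1)) ≤ 1 / ((p : ℝ) - 1) := by
            have h3 := Real.log_le_sub_one_of_pos (show (0:ℝ) < (p : ℝ) / (p - 1) by
              apply div_pos <;> linarith)
            refine h3.trans (le_of_eq ?_)
            have : (p : ℝ) - 1 ≠ 0 := by linarith
            field_simp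
            ring
          rw [abs_of_nonneg h1]
          linarith
        · rw [if_neg (fun h => hpb h.2.2.2), if_neg (fun h => h.2.2 hpa), if_neg (fun h => h.2 hpa),
            if_neg (fun h => hpb h.2.2), add_zero, add_zero, add_zero, abs_zero]
          exact hpos
      · rw [if_neg (fun h => hpa h.2.2.1), if_pos ⟨hpp, hp3, hpa⟩, if_pos ⟨hpp, hpa⟩,
          if_neg (fun h => hpa h.2.1), add_zero, zero_add]
        refine (log_factor D p hp3).trans (le_of_eq ?_)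
        ring
    · rw [if_neg (fun h => hpp h.1), if_neg (fun h => hpp h.1), if_neg (fun h => hpp h.1),
        if_neg (fun h => hpp h.1), add_zero, add_zero, abs_zero, add_zero]
      exact hpos
  have hS1 : |∑ p ∈ Ioc z Z, (hh a b c p + (if p.Prime ∧ ¬ (p : ℤ) ∣ a then (jacobiSym D p : ℝ) / p else 0))| ≤
      12 / z + SB a b z Z := by
    refine (abs_sum_le_sum_abs _ _).trans ((sum_le_sum hpt).trans ?_)
    rw [sum_add_distrib, ← mul_sum, ← sum_filter]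
    have h1 := sum_inv_sq z Z (by omega) hzZ
    have h2 : (0:ℝ) ≤ 1 / (Z:ℝ) := by positivity
    have h4 : 12 * (∑ n ∈ Ioc z Z, 1 / (n : ℝ) ^ 2) ≤ 12 / (z : ℝ) := by
      calc 12 * (∑ n ∈ Ioc z Z, 1 / (n : ℝ) ^ 2) ≤ 12 * (1 / (z : ℝ)) := by linarith
        _ = 12 / (z : ℝ) := by ring
    unfold SB
    linarith
  rw [sum_add_distrib, ← sum_filter] at hS1
  change |∑ p ∈ Ioc z Z, hh a b c p + LOW a D z Z| ≤ _ at hS1
  set S := ∑ p ∈ Ioc z Z, hh a b c p with hSd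
  have e : S = (S + LOW a D z Z) - LOW a D z Z := by ring
  rw [e]
  refine (abs_sub _ _).trans ?_
  linarith

lemma SJ4 (D : ℤ) (z N : ℕ) (hz : 2 ≤ z) : SJ (4 * D) z N = SJ D z N := by
  unfold SJ
  refine sum_congr rfl fun p hp => ?_
  rw [mem_filter, mem_Ioc] at hp
  have h2 : Int.gcd 2 p = 1 := by
    have h3 : p.Coprime 2 := (Nat.coprime_primes hp.2 Nat.prime_two).2 (by omega)
    have h4 : Int.gcd 2 p = Nat.gcd 2 p := rfl
    rw [h4, Nat.gcd_comm]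
    exact h3
  have h3 : jacobiSym (4 * D) p = jacobiSym D p := by
    rw [show (4:ℤ) * D = 2 ^ 2 * D by ring, jacobiSym.mul_left, jacobiSym.sq_one' h2, one_mul]
  rw [h3]

/-- the number of multiples of `p` -/
lemma mult_le (b₀ : ℤ) (M p : ℕ) (hp : 0 < p) :
    (#((Ioc b₀ (b₀ + M)).filter (fun b : ℤ => (p : ℤ) ∣ b)) : ℝ) ≤ M / p + 1 := by
  have h1 := Int.Ioc_filter_dvd_card b₀ (b₀ + M) (r := (p : ℤ)) (by exact_mod_cast hp)
  have h2 : (#((Ioc b₀ (b₀ + M)).filter (fun b : ℤ => (p : ℤ) ∣ b)) : ℚ) ≤ M / p + 1 := by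
    have h3 : (#((Ioc b₀ (b₀ + M)).filter (fun b : ℤ => (p : ℤ) ∣ b)) : ℚ) =
        ((#((Ioc b₀ (b₀ + M)).filter (fun b : ℤ => (p : ℤ) ∣ b)) : ℤ) : ℚ) := by push_cast; rfl
    rw [h3, h1, Int.cast_max, max_le_iff]
    have e1 := Int.floor_le (((b₀ + M : ℤ) : ℚ) / ((p : ℤ) : ℚ))
    have e2 := Int.lt_floor_add_one ((b₀ : ℚ) / ((p : ℤ) : ℚ))
    have e3 : ((b₀ + M : ℤ) : ℚ) / ((p : ℤ) : ℚ) = (b₀ : ℚ) / ((p : ℤ) : ℚ) + M / p := by
      push_cast; ring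
    refine ⟨?_, by push_cast; positivity⟩
    rw [Int.cast_sub]
    linarith
  have h4 := (Rat.cast_le (K := ℝ)).2 h2
  push_cast at h4
  exact h4

/-- few `b` have many common prime factors with `a` -/
lemma sb_count (a : ℤ) (ha : 0 < a) (b₀ : ℤ) (M z Z : ℕ) (hz : 2 ≤ z) (hzZ : z ≤ Z) (τ : ℝ) (hτ : 0 < τ) :
    (#((Ioc b₀ (b₀ + M)).filter (fun b => τ < SB a b z Z)) : ℝ) ≤ (2 * M / z + (Nat.log 2 a.toNat) / z) / τ := by
  classical
  have hz0 : (0:ℝ) < z := by exact_mod_cast (by omega : 0 < z)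
  rw [le_div_iff₀ hτ]
  set A := (Ioc z Z).filter (fun p : ℕ => p.Prime ∧ (p : ℤ) ∣ a) with hA
  have hAc : (#A : ℝ) ≤ Nat.log 2 a.toNat := by
    have h1 := card_prime_dvd a.toNat (by omega) A (by
      intro p hp
      rw [hA, mem_filter] at hp
      refine ⟨hp.2.1, ?_⟩
      have h2 := hp.2.2
      have h3 : (a.toNat : ℤ) = a := Int.toNat_of_nonneg ha.le
      rw [← h3] at h2
      exact_mod_cast h2)
    exact_mod_cast h1
  calc (#((Ioc b₀ (b₀ + M)).filter (fun b => τ < SB a b z Z)) : ℝ) * τ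
      ≤ ∑ b ∈ (Ioc b₀ (b₀ + M)).filter (fun b => τ < SB a b z Z), SB a b z Z := by
        rw [← nsmul_eq_mul]
        exact card_nsmul_le_sum _ _ _ (fun b hb => (mem_filter.1 hb).2.le)
    _ ≤ ∑ b ∈ Ioc b₀ (b₀ + M), SB a b z Z :=
        sum_le_sum_of_subset_of_nonneg (filter_subset _ _) (fun b _ _ => SB_nonneg a b z Z)
    _ = ∑ b ∈ Ioc b₀ (b₀ + M), ∑ p ∈ A, (if (p : ℤ) ∣ b then 1 / ((p : ℝ) - 1) else 0) := by
        refine sum_congr rfl fun b _ => ?_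
        unfold SB
        rw [← sum_filter]
        refine sum_congr ?_ fun _ _ => rfl
        ext p
        simp only [hA, mem_filter]
        tauto
    _ = ∑ p ∈ A, ∑ b ∈ Ioc b₀ (b₀ + M), (if (p : ℤ) ∣ b then 1 / ((p : ℝ) - 1) else 0) := sum_comm
    _ = ∑ p ∈ A, (#((Ioc b₀ (b₀ + M)).filter (fun b : ℤ => (p : ℤ) ∣ b)) : ℝ) * (1 / ((p : ℝ) - 1)) := by
        refine sum_congr rfl fun p _ => ?_
        rw [← sum_filter, sum_const, nsmul_eq_mul]
    _ ≤ ∑ p ∈ A, (2 * M * (1 / (p : ℝ) ^ 2) + 1 / z) := by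
        refine sum_le_sum fun p hp => ?_
        rw [hA, mem_filter, mem_Ioc] at hp
        have hp3 : (3 : ℝ) ≤ p := by exact_mod_cast (by omega : 3 ≤ p)
        have hpz : (z : ℝ) + 1 ≤ p := by exact_mod_cast hp.1.1
        have h1 := mult_le b₀ M p (by omega)
        have h2 : 1 / ((p : ℝ) - 1) ≤ 1 / z := one_div_le_one_div_of_le hz0 (by linarith)
        have h3 : 0 ≤ 1 / ((p : ℝ) - 1) := by
          apply div_nonneg zero_le_one
          linarith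
        have h4 : 1 / ((p : ℝ) - 1) ≤ 2 / p := by
          rw [div_le_div_iff₀ (by linarith) (by linarith)]
          linarith
        have hM : (0 : ℝ) ≤ M := Nat.cast_nonneg _
        have h5 : (M : ℝ) / p * (1 / ((p : ℝ) - 1)) ≤ 2 * M * (1 / (p : ℝ) ^ 2) := by
          calc (M : ℝ) / p * (1 / ((p : ℝ) - 1)) ≤ M / p * (2 / p) :=
                mul_le_mul_of_nonneg_left h4 (by positivity)
            _ = _ := by ring
        calc _ ≤ ((M : ℝ) / p + 1) * (1 / ((p : ℝ) - 1)) := mul_le_mul_of_nonneg_right h1 h3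
          _ = (M : ℝ) / p * (1 / ((p : ℝ) - 1)) + 1 / ((p : ℝ) - 1) := by ring
          _ ≤ _ := add_le_add h5 h2
    _ ≤ 2 * M / z + (Nat.log 2 a.toNat) / z := by
        rw [sum_add_distrib, ← mul_sum, sum_const, nsmul_eq_mul]
        have h1 : (∑ p ∈ A, 1 / (p : ℝ) ^ 2) ≤ 1 / (z : ℝ) := by
          have h2 := sum_inv_sq z Z (by omega) hzZ
          have h3 : (0:ℝ) ≤ 1 / (Z:ℝ) := by positivity
          have h4 : (∑ p ∈ A, 1 / (p : ℝ) ^ 2) ≤ ∑ p ∈ Ioc z Z, 1 / (p : ℝ) ^ 2 :=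
            sum_le_sum_of_subset_of_nonneg (filter_subset _ _) (fun _ _ _ => by positivity)
          linarith
        have hM : (0 : ℝ) ≤ M := Nat.cast_nonneg _
        have h5 : 2 * (M : ℝ) * ∑ p ∈ A, 1 / (p : ℝ) ^ 2 ≤ 2 * M / z := by
          calc 2 * (M : ℝ) * ∑ p ∈ A, 1 / (p : ℝ) ^ 2 ≤ 2 * M * (1 / z) :=
                mul_le_mul_of_nonneg_left h1 (by positivity)
            _ = _ := by ring
        have h6 : (#A : ℝ) * (1 / z) ≤ (Nat.log 2 a.toNat) / z := by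
          calc (#A : ℝ) * (1 / z) ≤ (Nat.log 2 a.toNat) * (1 / z) :=
                mul_le_mul_of_nonneg_right hAc (by positivity)
            _ = _ := by ring
        linarith

/-- the smallest possible product up to `w` -/
noncomputable def Pw (w : ℕ) : ℝ :=
  ∏ p ∈ (range (w + 1)).filter (fun p : ℕ => p.Prime ∧ 3 ≤ p), (1 - 1 / ((p : ℝ) - 1))

lemma Pw_pos (w : ℕ) : 0 < Pw w := by
  refine prod_pos fun p hp => ?_
  rw [mem_filter] at hp
  have : (3 : ℝ) ≤ p := by exact_mod_cast hp.2.2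
  rw [sub_pos, div_lt_one (by linarith)]
  linarith

lemma CF_ge (a b c : ℤ) (w : ℕ) : Pw w / 2 ≤ CF a b c w := by
  classical
  unfold CF
  have h1 : (1 / 2 : ℝ) ≤ (if (2 : ℤ) ∣ a + b then 1 else 1 / 2) := by split_ifs <;> norm_num
  have h2 : (1 : ℝ) ≤ ∏ p ∈ (range (w + 1)).filter (fun p : ℕ => p.Prime ∧ 3 ≤ p ∧ (p : ℤ) ∣ a ∧ (p : ℤ) ∣ b),
      (p : ℝ) / (p - 1) := by
    calc (1 : ℝ) = ∏ p ∈ (range (w + 1)).filter (fun p : ℕ => p.Prime ∧ 3 ≤ p ∧ (p : ℤ) ∣ a ∧ (p : ℤ) ∣ b), 1 := by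
          rw [prod_const_one]
      _ ≤ _ := by
          refine prod_le_prod (fun _ _ => zero_le_one) fun p hp => ?_
          rw [mem_filter] at hp
          have : (3 : ℝ) ≤ p := by exact_mod_cast hp.2.2.1
          rw [le_div_iff₀ (by linarith)]
          linarith
  have h3 : Pw w ≤ ∏ p ∈ (range (w + 1)).filter (fun p : ℕ => p.Prime ∧ 3 ≤ p ∧ ¬ (p : ℤ) ∣ a),
      (1 - (jacobiSym (b ^ 2 - 4 * a * c) p : ℝ) / (p - 1)) := by
    unfold Pw
    rw [prod_filter, prod_filter]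
    refine prod_le_prod (fun p _ => ?_) fun p _ => ?_
    · split_ifs with h
      · have : (3 : ℝ) ≤ p := by exact_mod_cast h.2
        rw [sub_nonneg, div_le_one (by linarith)]
        linarith
      · exact zero_le_one
    · by_cases h : p.Prime ∧ 3 ≤ p
      · have hp3 : (3 : ℝ) ≤ p := by exact_mod_cast h.2
        have h4 : 0 ≤ 1 / ((p : ℝ) - 1) := by
          apply div_nonneg zero_le_one
          linarith
        rw [if_pos h]
        by_cases hpa : (p : ℤ) ∣ a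
        · rw [if_neg (fun h' => h'.2.2 hpa)]
          linarith
        · rw [if_pos ⟨h.1, h.2, hpa⟩]
          have h5 := (abs_le.1 (js_abs (b ^ 2 - 4 * a * c) p)).2
          have h6 : (jacobiSym (b ^ 2 - 4 * a * c) p : ℝ) / (p - 1) ≤ 1 / (p - 1) :=
            div_le_div_of_nonneg_right h5 (by linarith)
          linarith
      · rw [if_neg h, if_neg (fun h' => h ⟨h'.1, h'.2.1⟩)]
  have h4 := Pw_pos w
  calc Pw w / 2 = 1 / 2 * 1 * Pw w := by ring
    _ ≤ _ := by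
        apply mul_le_mul _ h3 h4.le (by positivity)
        exact mul_le_mul h1 h2 zero_le_one (by positivity)

/-- the tail for one `b` -/
theorem tailQ (ρ : ℝ) (hρ : 0 < ρ) (C : ℕ) : ∃ E X₀ : ℕ, 4 ≤ E ∧ ∀ X : ℕ, X₀ ≤ X → ∀ (a : ℕ) (b : ℤ), 1 ≤ a →
    (a : ℝ) ≤ (X : ℝ) ^ (1 - ρ) → (b : ℝ) ^ 2 ≤ a * X * Real.log X ^ C →
    ∃ B : Finset ℤ, (#B : ℝ) ≤ X / Real.log X + 1 ∧ ∀ c ∈ Icc (-(X : ℤ)) X, c ∉ B →
      ¬ IsSquare (b ^ 2 - 4 * a * c) ∧
      ∀ᶠ N in atTop, |SJ (b ^ 2 - 4 * a * c) ⌊Real.log X ^ E⌋₊ N| ≤ 1 / Real.log X := by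
  classical
  obtain ⟨r, hr⟩ : ∃ r, r = min ρ 1 := ⟨_, rfl⟩
  have hr0 : 0 < r := by rw [hr]; exact lt_min hρ one_pos
  have hrρ : r ≤ ρ := by rw [hr]; exact min_le_left _ _
  obtain ⟨U, hU⟩ : ∃ U, U = C + 2 := ⟨_, rfl⟩
  obtain ⟨V, hV⟩ : ∃ V, V = 3 * (U + 1) + 4 := ⟨_, rfl⟩
  obtain ⟨E, hE⟩ : ∃ E, E = V + 2 := ⟨_, rfl⟩
  obtain ⟨X1, h1⟩ := Pool.Agent.R460.SC.tail_both 1 one_ne_zero 0 (r / 8) (by positivity) U E
  have hev : ∀ᶠ X : ℕ in atTop, (2 : ℝ) ^ V + 10 ≤ Real.log X ∧ Real.log X ^ (C + 1) ≤ (X : ℝ) ^ r ∧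
      Real.log X ^ 1 ≤ (X : ℝ) ^ (r / 4) ∧ 1 ≤ X := by
    filter_upwards [evt_log_ge (2 ^ V + 10), evt_log_pow (C + 1) r hr0, evt_log_pow 1 (r / 4) (by positivity),
      eventually_ge_atTop 1] with X a1 a2 a3 a4
    exact ⟨a1, a2, a3, a4⟩
  obtain ⟨X2, h2⟩ := eventually_atTop.1 hev
  refine ⟨E, max X1 X2, by omega, fun X hX a b ha haX hb => ?_⟩
  obtain ⟨hl, hlC, hl1, hX1⟩ := h2 X ((le_max_right _ _).trans hX)
  have hXr : (1 : ℝ) ≤ X := by exact_mod_cast hX1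
  have hX0 : (0 : ℝ) < X := by linarith
  have ha1 : (1 : ℝ) ≤ a := by exact_mod_cast ha
  have ha0 : (0 : ℝ) < a := by linarith
  obtain ⟨l, hld⟩ : ∃ l, l = Real.log X := ⟨_, rfl⟩
  rw [← hld] at hl hlC hl1 hb ⊢
  have h2V : (1 : ℝ) ≤ 2 ^ V := one_le_pow₀ (by norm_num)
  have hl10 : 10 ≤ l := by linarith
  have hl0 : 0 < l := by linarith
  have hl1' : 1 ≤ l := by linarith
  obtain ⟨Y, hY⟩ : ∃ Y : ℕ, Y = 4 * a * X + b.natAbs ^ 2 := ⟨_, rfl⟩
  have hbb : ((b.natAbs : ℕ) : ℝ) ^ 2 = (b : ℝ) ^ 2 := by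
    have : ((b.natAbs ^ 2 : ℕ) : ℤ) = b ^ 2 := by push_cast; exact sq_abs b
    have h3 : (((b.natAbs ^ 2 : ℕ) : ℤ) : ℝ) = ((b ^ 2 : ℤ) : ℝ) := by rw [this]
    push_cast at h3
    rw [Nat.cast_natAbs]
    push_cast
    exact h3
  have hYr : (Y : ℝ) = 4 * a * X + (b : ℝ) ^ 2 := by rw [hY]; push_cast; rw [hbb]
  have hXY : X ≤ Y := by
    rw [hY]
    nlinarith [Nat.zero_le (b.natAbs ^ 2)]
  have hXYr : (X : ℝ) ≤ Y := by exact_mod_cast hXY
  have hY0 : (0 : ℝ) < Y := by linarith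
  have hlC1 : (1 : ℝ) ≤ l ^ C := one_le_pow₀ hl1'
  have hlC2 : 4 + l ^ C ≤ l ^ (C + 1) := by rw [pow_succ]; nlinarith
  have hY2 : (Y : ℝ) ≤ a * X * (4 + l ^ C) := by rw [hYr]; linarith
  have haXr : (a : ℝ) ≤ (X : ℝ) ^ (1 - r) :=
    haX.trans (Real.rpow_le_rpow_of_exponent_le hXr (by linarith))
  have hY3 : (Y : ℝ) ≤ X ^ 2 := by
    calc (Y : ℝ) ≤ a * X * (4 + l ^ C) := hY2
      _ ≤ (X : ℝ) ^ (1 - r) * X * (X : ℝ) ^ r := by
          have := hlC2.trans hlC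
          gcongr
      _ = X * ((X : ℝ) ^ (1 - r) * (X : ℝ) ^ r) := by ring
      _ = X ^ 2 := by rw [← Real.rpow_add hX0]; norm_num; ring
  have hlY : l ≤ Real.log Y := by rw [hld]; exact Real.log_le_log hX0 hXYr
  have hlY2 : Real.log Y ≤ 2 * l := by
    have := Real.log_le_log hY0 hY3
    rw [Real.log_pow] at this
    rw [hld]
    exact_mod_cast this
  obtain ⟨Z, hZ⟩ : ∃ Z, Z = ⌊l ^ E⌋₊ := ⟨_, rfl⟩
  have hZl : l ^ E < Z + 1 := by rw [hZ]; exact Nat.lt_floor_add_one _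
  have hZu : (Z : ℝ) ≤ l ^ E := by rw [hZ]; exact Nat.floor_le (by positivity)
  have hlV1 : (1 : ℝ) ≤ l ^ V := one_le_pow₀ hl1'
  have hEV : l ^ E = l ^ V * l * l := by rw [hE, pow_add]; ring
  have hZ1 : Real.log Y ^ V ≤ Z := by
    have e1 : Real.log Y ^ V ≤ (2 * l) ^ V := pow_le_pow_left₀ (hl0.le.trans hlY) hlY2 V
    have e2 : (2 * l) ^ V = 2 ^ V * l ^ V := mul_pow _ _ _
    have e3 : 2 ^ V * l ^ V ≤ l * l ^ V := mul_le_mul_of_nonneg_right (by linarith) (by positivity)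
    have e4 : 1 ≤ l ^ V * l := by nlinarith
    have e5 : l ^ V * l * 10 ≤ l ^ V * l * l := mul_le_mul_of_nonneg_left hl10 (by positivity)
    nlinarith
  have hZ2 : (Z : ℝ) ≤ Real.log Y ^ E := hZu.trans (pow_le_pow_left₀ hl0.le hlY E)
  have hZ3 : 2 ≤ Z := by
    have e4 : 1 ≤ l ^ V * l := by nlinarith
    have e5 : l ^ V * l * 10 ≤ l ^ V * l * l := mul_le_mul_of_nonneg_left hl10 (by positivity)
    have e6 : (2 : ℝ) ≤ Z := by nlinarith
    exact_mod_cast e6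
  have hq : ((4 * a : ℕ) : ℝ) ≤ (Y : ℝ) ^ (1 / 2 - r / 8) := by
    rw [Real.rpow_sub hY0, le_div_iff₀ (by positivity)]
    have e1 : (Y : ℝ) ^ (r / 8) ≤ (X : ℝ) ^ (r / 4) := by
      calc (Y : ℝ) ^ (r / 8) ≤ ((X : ℝ) ^ 2) ^ (r / 8) := Real.rpow_le_rpow hY0.le hY3 (by positivity)
        _ = (X : ℝ) ^ (r / 4) := by
            rw [← Real.rpow_natCast, ← Real.rpow_mul hX0.le]
            congr 1
            push_cast; ring
    have e2 : 2 * a * (X : ℝ) ^ (r / 2) ≤ (Y : ℝ) ^ (1 / 2 : ℝ) := by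
      rw [← Real.sqrt_eq_rpow]
      apply Real.le_sqrt_of_sq_le
      have e3 : (2 * a * (X : ℝ) ^ (r / 2)) ^ 2 = 4 * a * (a * (X : ℝ) ^ r) := by
        have : ((X : ℝ) ^ (r / 2)) ^ 2 = (X : ℝ) ^ r := by
          rw [← Real.rpow_natCast, ← Real.rpow_mul hX0.le]
          congr 1
          push_cast; ring
        rw [mul_pow, this]; ring
      rw [e3, hYr]
      have e4 : (a : ℝ) * (X : ℝ) ^ r ≤ X := by
        calc (a : ℝ) * (X : ℝ) ^ r ≤ (X : ℝ) ^ (1 - r) * (X : ℝ) ^ r :=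
              mul_le_mul_of_nonneg_right haXr (by positivity)
          _ = X := by rw [← Real.rpow_add hX0]; norm_num
      have e5 := mul_le_mul_of_nonneg_left e4 (show (0 : ℝ) ≤ 4 * a by positivity)
      have e6 := sq_nonneg (b : ℝ)
      linarith
    have e5 : (X : ℝ) ^ (r / 2) = (X : ℝ) ^ (r / 4) * (X : ℝ) ^ (r / 4) := by
      rw [← Real.rpow_add hX0]; congr 1; ring
    have e6 : 2 ≤ (X : ℝ) ^ (r / 4) := by rw [pow_one] at hl1; linarith
    calc ((4 * a : ℕ) : ℝ) * (Y : ℝ) ^ (r / 8) = 2 * a * (2 * (Y : ℝ) ^ (r / 8)) := by push_cast; ring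
      _ ≤ 2 * a * ((X : ℝ) ^ (r / 4) * (X : ℝ) ^ (r / 4)) := by gcongr
      _ = 2 * a * (X : ℝ) ^ (r / 2) := by rw [e5]
      _ ≤ _ := e2
  obtain ⟨Ex, hEx, hgood⟩ := h1 Y (((le_max_left _ _).trans hX).trans hXY) Z (by rw [← hV]; exact hZ1) hZ2 (4 * a)
    (by omega) hq (-b ^ 2)
  refine ⟨(Icc (-(X : ℤ)) X).filter (fun c => 4 * a * c - b ^ 2 ∈ Ex), ?_, ?_⟩
  · have e1 : #((Icc (-(X : ℤ)) X).filter (fun c => 4 * a * c - b ^ 2 ∈ Ex)) ≤ #Ex := by
      refine card_le_card_of_injOn (fun c => 4 * a * c - b ^ 2) ?_ ?_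
      · intro c hc
        rw [mem_coe, mem_filter] at hc
        exact hc.2
      · intro c _ c' _ h
        simp only at h
        have h4 : (4 * a : ℤ) * c = 4 * a * c' := by linarith
        exact mul_left_cancel₀ (by positivity) h4
    have e2 : (#((Icc (-(X : ℤ)) X).filter (fun c => 4 * a * c - b ^ 2 ∈ Ex)) : ℝ) ≤ #Ex := by exact_mod_cast e1
    refine (e2.trans hEx).trans ?_
    have e3 : (Y : ℝ) / (((4 * a : ℕ) : ℝ) * Real.log Y ^ U) ≤ (X / l) / 4 := by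
      have hlY0 : 0 < Real.log Y := lt_of_lt_of_le hl0 hlY
      push_cast
      rw [div_div, div_le_div_iff₀ (by positivity) (by positivity)]
      have e4 : l ^ U ≤ Real.log Y ^ U := pow_le_pow_left₀ hl0.le hlY U
      calc (Y : ℝ) * (l * 4) ≤ a * X * (4 + l ^ C) * (l * 4) := by gcongr
        _ ≤ a * X * (l ^ (C + 1)) * (l * 4) := by gcongr
        _ = X * (4 * a * l ^ U) := by rw [hU, pow_add, pow_add]; ring
        _ ≤ X * (4 * a * Real.log Y ^ U) := by gcongr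
    have e5 : 0 < X / l := by positivity
    linarith
  · intro c hc hcB
    have hc' := mem_Icc.1 hc
    have hcE : 4 * a * c - b ^ 2 ∉ Ex := fun h => hcB (mem_filter.2 ⟨hc, h⟩)
    have haz : (1 : ℤ) ≤ a := by exact_mod_cast ha
    have hYz : (Y : ℤ) = 4 * a * X + b ^ 2 := by
      rw [hY]; push_cast; rw [sq_abs]
    have k1 : (a : ℤ) * c ≤ a * X := mul_le_mul_of_nonneg_left hc'.2 (by omega)
    have k2 : (a : ℤ) * (-X) ≤ a * c := mul_le_mul_of_nonneg_left hc'.1 (by omega)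
    have k3 : (0 : ℤ) ≤ b ^ 2 := sq_nonneg b
    obtain ⟨g1, g2⟩ := hgood (4 * a * c - b ^ 2) (by rw [hYz]; linarith) (by rw [hYz]; linarith) (by
      rw [Int.modEq_iff_dvd]
      refine ⟨-c, ?_⟩
      push_cast; ring) hcE
    have hD : (0 : ℤ) ^ 2 - 4 * 1 * (4 * a * c - b ^ 2) = 4 * (b ^ 2 - 4 * a * c) := by ring
    rw [hD] at g1 g2
    refine ⟨?_, ?_⟩
    · rintro ⟨r', hr'⟩
      apply g1
      exact ⟨2 * r', by rw [hr']; ring⟩
    · rw [← hZ]
      filter_upwards [g2] with N hN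
      rw [SJ4 _ _ _ hZ3] at hN
      refine hN.trans ?_
      apply one_div_le_one_div_of_le hl0
      calc l ≤ Real.log Y := hlY
        _ ≤ Real.log Y ^ U := le_self_pow₀ (hl1'.trans hlY) (by omega)

theorem t_HGQ : S_HGQ := by
  classical
  intro η hη
  obtain ⟨w0, hw0⟩ : ∃ w0 : ℕ, w0 = ⌈2000 / η⌉₊ + 100 := ⟨_, rfl⟩
  have hw01 : 2000 / η ≤ w0 := by
    rw [hw0]; push_cast
    have := Nat.le_ceil (2000 / η)
    linarith
  have hw02 : 100 ≤ w0 := by omega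
  have hw0r : (100 : ℝ) ≤ w0 := by exact_mod_cast hw02
  have hP0 := Pw_pos w0
  refine ⟨Pw w0 / 4, by positivity, fun ε1 hε1 u hu ρ C hρ => ?_⟩
  obtain ⟨E, X1, hE4, h1⟩ := tailQ ρ hρ C
  obtain ⟨τ, hτ⟩ : ∃ τ, τ = min ε1 1 / 8 := ⟨_, rfl⟩
  have hmin : 0 < min ε1 1 := lt_min hε1 one_pos
  have hτ0 : 0 < τ := by rw [hτ]; positivity
  have hτ1 : 8 * τ ≤ ε1 := by rw [hτ]; have := min_le_left ε1 1; linarith
  have hτ2 : 8 * τ ≤ 1 := by rw [hτ]; have := min_le_right ε1 1; linarith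
  have hur : (0 : ℝ) < u := by exact_mod_cast hu
  obtain ⟨c1, hc1⟩ : ∃ c1 : ℝ, c1 = 24 / τ + 96 / (η * τ ^ 2) + 96 / (η * τ) + w0 + 4 := ⟨_, rfl⟩
  have hev : ∀ᶠ X : ℕ in atTop, (100 : ℝ) ≤ Real.log X ∧
      c1 * Real.log (Real.log X) ^ 0 ≤ Real.log X ^ (1 / (u : ℝ)) ∧
      Real.log X ^ (2 * E + 1) ≤ (X : ℝ) ^ (1 : ℝ) ∧ Real.log X ^ 2 ≤ (X : ℝ) ^ (1 / 3 : ℝ) ∧
      3 / τ + 512 / η + 64 / (η * τ ^ 2) ≤ Real.log X ∧ 1 ≤ X := by
    filter_upwards [evt_log_ge 100, evt_ll 0 (1 / (u : ℝ)) c1 (by positivity),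
      evt_log_pow (2 * E + 1) 1 (by norm_num), evt_log_pow 2 (1 / 3) (by norm_num),
      evt_log_ge (3 / τ + 512 / η + 64 / (η * τ ^ 2)), eventually_ge_atTop 1] with X a1 a2 a3 a4 a5 a6
    exact ⟨a1, a2, a3, a4, a5, a6⟩
  obtain ⟨X2, h2⟩ := eventually_atTop.1 hev
  refine ⟨max X1 X2, fun X hX b₀ a M ha haX hMX hbM => ?_⟩
  obtain ⟨hl, hlu, hlX, hlM, hlτ, hX1⟩ := h2 X ((le_max_right _ _).trans hX)
  have h1X := h1 X ((le_max_left _ _).trans hX)
  clear h1 h2 hev hX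
  rw [pow_zero, mul_one] at hlu
  rw [Real.rpow_one] at hlX
  have hXr : (1 : ℝ) ≤ X := by exact_mod_cast hX1
  have hX0 : (0 : ℝ) < X := by linarith
  have ha1 : (1 : ℝ) ≤ a := by exact_mod_cast ha
  have haz : (0 : ℤ) < a := by exact_mod_cast ha
  have haz1 : (1 : ℤ) ≤ a := by exact_mod_cast ha
  have haXX : (a : ℝ) ≤ X := by
    refine haX.trans ?_
    calc (X : ℝ) ^ (1 - ρ) ≤ (X : ℝ) ^ (1 : ℝ) := Real.rpow_le_rpow_of_exponent_le hXr (by linarith)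
      _ = X := Real.rpow_one _
  have hlog2 : ((Nat.log 2 (a : ℤ).toNat : ℕ) : ℝ) ≤ 2 * Real.log X := by
    rw [Int.toNat_natCast]
    have e1 := natlog_le a ha
    have e2 := Real.log_le_log (by linarith) haXX
    have e3 : (0 : ℝ) ≤ ((Nat.log 2 a : ℕ) : ℝ) := Nat.cast_nonneg _
    nlinarith
  obtain ⟨l, hld⟩ : ∃ l, l = Real.log X := ⟨_, rfl⟩
  rw [← hld] at hl hlu hlX hlM hlτ hlog2 hbM ⊢
  simp only [← hld] at h1X
  have hl0 : 0 < l := by linarith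
  have hl1 : 1 ≤ l := by linarith
  have hM0 : (0 : ℝ) < M := lt_of_lt_of_le (by positivity) (hlM.trans hMX)
  have hl2M : 2 * l ≤ M := by
    refine le_trans ?_ (hlM.trans hMX)
    nlinarith
  obtain ⟨w, hw⟩ : ∃ w, w = ⌊l ^ (1 / (u : ℝ))⌋₊ := ⟨_, rfl⟩
  obtain ⟨Z, hZ⟩ : ∃ Z, Z = ⌊l ^ E⌋₊ := ⟨_, rfl⟩
  rw [← hw]
  simp only [← hZ] at h1X
  have p1 : 0 < 24 / τ := by positivity
  have p2 : 0 < 96 / (η * τ ^ 2) := by positivity
  have p2a : 0 < 96 / (η * τ) := by positivity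
  have p2' : 0 < 64 / (η * τ ^ 2) := by positivity
  have p3 : 0 < 3 / τ := by positivity
  have p4 : 0 < 512 / η := by positivity
  have hwc : 24 / τ + 96 / (η * τ ^ 2) + 96 / (η * τ) + w0 + 3 ≤ w := by
    have h3 := Nat.lt_floor_add_one (l ^ (1 / (u : ℝ)))
    rw [← hw] at h3
    linarith
  have hww0 : w0 ≤ w := by
    have : (w0 : ℝ) ≤ w := by linarith
    exact_mod_cast this
  have hwr : (100 : ℝ) ≤ w := by exact_mod_cast hw02.trans hww0
  have hlu1 : l ^ (1 / (u : ℝ)) ≤ l ^ E := by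
    calc l ^ (1 / (u : ℝ)) ≤ l ^ (1 : ℝ) := by
          apply Real.rpow_le_rpow_of_exponent_le hl1
          rw [div_le_one hur]; exact_mod_cast hu
      _ = l := Real.rpow_one _
      _ ≤ l ^ E := le_self_pow₀ hl1 (by omega)
  have hwZ : w ≤ Z := by rw [hw, hZ]; exact Nat.floor_le_floor hlu1
  have hZle : (Z : ℝ) ≤ l ^ E := by rw [hZ]; exact Nat.floor_le (by positivity)
  have hZge : l ^ 3 ≤ Z := by
    have e1 : l ^ E < Z + 1 := by rw [hZ]; exact Nat.lt_floor_add_one _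
    have e2 : l ^ 4 ≤ l ^ E := pow_le_pow_right₀ hl1 hE4
    have e3 : 1 ≤ l ^ 3 := one_le_pow₀ hl1
    have e4 : l ^ 4 = l ^ 3 * l := by ring
    nlinarith
  have hZ2 : (Z : ℝ) ^ 2 * l ≤ X := by
    calc (Z : ℝ) ^ 2 * l ≤ (l ^ E) ^ 2 * l := by gcongr
      _ = l ^ (2 * E + 1) := by ring
      _ ≤ X := hlX
  have hZ0 : (0 : ℝ) < Z := lt_of_lt_of_le (by positivity) hZge
  have hlX1 : l ≤ X := by
    refine le_trans ?_ hlX
    exact le_self_pow₀ hl1 (by omega)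
  -- the bad sets
  have hb2 : ∀ b ∈ Ioc b₀ (b₀ + M), (b : ℝ) ^ 2 ≤ a * X * l ^ C := by
    intro b hb
    rw [mem_Ioc] at hb
    refine le_trans ?_ hbM
    apply sq_le_sq'
    · have e1 : (b₀ : ℝ) ≤ b := by exact_mod_cast hb.1.le
      have e2 := neg_abs_le (b₀ : ℝ)
      linarith
    · have e1 : (b : ℝ) ≤ b₀ + M := by exact_mod_cast hb.2
      have e2 := le_abs_self (b₀ : ℝ)
      linarith
  have hex : ∀ b : ℤ, ∃ B : Finset ℤ, b ∈ Ioc b₀ (b₀ + M) → ((#B : ℝ) ≤ X / l + 1 ∧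
      ∀ c ∈ Icc (-(X : ℤ)) X, c ∉ B → ¬ IsSquare (b ^ 2 - 4 * a * c) ∧
      ∀ᶠ N in atTop, |SJ (b ^ 2 - 4 * a * c) Z N| ≤ 1 / l) := by
    intro b
    by_cases hb : b ∈ Ioc b₀ (b₀ + M)
    · obtain ⟨B, g⟩ := h1X a b ha haX (hb2 b hb)
      exact ⟨B, fun _ => g⟩
    · exact ⟨∅, fun h => absurd h hb⟩
  choose B0 hB0 using hex
  obtain ⟨B1, hB1⟩ : ∃ B1 : ℤ → Finset ℤ, B1 = fun b => (Icc (-(X : ℤ)) X).filter
      (fun c : ℤ => 1 / 8 < |LOW a (b ^ 2 - 4 * a * c) w0 Z|) := ⟨_, rfl⟩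
  obtain ⟨B2, hB2⟩ : ∃ B2 : ℤ → Finset ℤ, B2 = fun b => (Icc (-(X : ℤ)) X).filter
      (fun c : ℤ => τ < |LOW a (b ^ 2 - 4 * a * c) w Z|) := ⟨_, rfl⟩
  obtain ⟨F1, hF1⟩ : ∃ F1, F1 = (Ioc b₀ (b₀ + M)).filter (fun b : ℤ => 1 / 8 < SB a b w0 Z) := ⟨_, rfl⟩
  obtain ⟨F2, hF2⟩ : ∃ F2, F2 = (Ioc b₀ (b₀ + M)).filter (fun b : ℤ => τ < SB a b w Z) := ⟨_, rfl⟩
  have hXX : ((2 * X + 1 : ℕ) : ℝ) ≤ 3 * X := by push_cast; linarith
  have hηX : 0 < η * X := by positivity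
  have d0 : ∀ b ∈ Ioc b₀ (b₀ + M), (#(B0 b) : ℝ) ≤ η * X / 8 := by
    intro b hb
    refine (hB0 b hb).1.trans ?_
    have h3 : 512 / η ≤ l := by linarith
    rw [div_le_iff₀ hη] at h3
    have e1 : (1 : ℝ) ≤ X / l := by rw [le_div_iff₀ hl0]; linarith
    have e2 : X / l ≤ η * X / 16 := by
      rw [div_le_div_iff₀ hl0 (by norm_num)]
      nlinarith
    linarith
  have d1 : ∀ b : ℤ, (#(B1 b) : ℝ) ≤ η * X / 4 := by
    intro b
    rw [hB1]
    refine (low_ab a b haz1 X w0 Z (by omega) (1 / 8) (by norm_num)).trans ?_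
    have e1 : ((2 * X + 1 : ℕ) : ℝ) / w0 ≤ η * X * (3 / 2000) := by
      rw [div_le_iff₀ (by linarith)]
      rw [div_le_iff₀ hη] at hw01
      have : 2000 * (X : ℝ) ≤ X * (w0 * η) := by nlinarith
      nlinarith
    have e2 : (Z : ℝ) ^ 2 ≤ η * X / 512 := by
      have h3 : 512 / η ≤ l := by linarith
      rw [div_le_iff₀ hη] at h3
      have h4 : (Z : ℝ) ^ 2 * 512 ≤ η * ((Z : ℝ) ^ 2 * l) := by
        have : 0 ≤ (Z : ℝ) ^ 2 := sq_nonneg _
        nlinarith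
      have h5 := mul_le_mul_of_nonneg_left hZ2 hη.le
      linarith
    rw [div_le_iff₀ (by norm_num)]
    linarith
  have d2 : ∀ b : ℤ, (#(B2 b) : ℝ) ≤ η * X / 8 := by
    intro b
    rw [hB2]
    refine (low_ab a b haz1 X w Z (by omega) τ hτ0).trans ?_
    have hητ : 0 < η * τ ^ 2 := by positivity
    have e1 : ((2 * X + 1 : ℕ) : ℝ) / w ≤ η * X / 32 * τ ^ 2 := by
      rw [div_le_iff₀ (by linarith)]
      have h3 : 96 / (η * τ ^ 2) ≤ w := by linarith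
      rw [div_le_iff₀ hητ] at h3
      calc ((2 * X + 1 : ℕ) : ℝ) ≤ 3 * X := hXX
        _ = X / 32 * 96 := by ring
        _ ≤ X / 32 * (w * (η * τ ^ 2)) := mul_le_mul_of_nonneg_left h3 (by positivity)
        _ = _ := by ring
    have e2 : (Z : ℝ) ^ 2 ≤ η * X / 64 * τ ^ 2 := by
      have h3 : 64 / (η * τ ^ 2) ≤ l := by linarith
      rw [div_le_iff₀ hητ] at h3
      have h0 : 0 ≤ (Z : ℝ) ^ 2 := sq_nonneg _
      have h4 : (Z : ℝ) ^ 2 * 64 ≤ (Z : ℝ) ^ 2 * (l * (η * τ ^ 2)) := mul_le_mul_of_nonneg_left h3 h0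
      have h5 := mul_le_mul_of_nonneg_right hZ2 hητ.le
      calc (Z : ℝ) ^ 2 = (Z : ℝ) ^ 2 * 64 / 64 := by ring
        _ ≤ ((Z : ℝ) ^ 2 * l * (η * τ ^ 2)) / 64 := by
            apply div_le_div_of_nonneg_right _ (by norm_num)
            linarith
        _ ≤ (X * (η * τ ^ 2)) / 64 := div_le_div_of_nonneg_right h5 (by norm_num)
        _ = _ := by ring
    have h0 : 0 < η * X * τ ^ 2 := by positivity
    rw [div_le_iff₀ (by positivity)]
    have e3 : η * X / 32 * τ ^ 2 = (η * X * τ ^ 2) / 32 := by ring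
    have e4 : η * X / 64 * τ ^ 2 = (η * X * τ ^ 2) / 64 := by ring
    have e5 : η * X / 8 * τ ^ 2 = (η * X * τ ^ 2) / 8 := by ring
    rw [e3] at e1
    rw [e4] at e2
    rw [e5]
    linarith
  have f1 : (#F1 : ℝ) ≤ η * M / 80 := by
    rw [hF1]
    refine (sb_count a haz b₀ M w0 Z (by omega) (hww0.trans hwZ) (1 / 8) (by norm_num)).trans ?_
    have e1 : 2 * (M : ℝ) / w0 + (Nat.log 2 (a : ℤ).toNat : ℕ) / w0 ≤ 3 * M / w0 := by
      rw [← add_div]
      apply div_le_div_of_nonneg_right _ (by linarith)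
      linarith
    have e2 : 3 * (M : ℝ) / w0 ≤ η * M * (3 / 2000) := by
      rw [div_le_iff₀ (by linarith)]
      rw [div_le_iff₀ hη] at hw01
      have : 2000 * (M : ℝ) ≤ M * (w0 * η) := by nlinarith
      nlinarith
    have : 0 < η * M := by positivity
    rw [div_le_iff₀ (by norm_num)]
    linarith
  have f2 : (#F2 : ℝ) ≤ η * M / 32 := by
    rw [hF2]
    refine (sb_count a haz b₀ M w Z (by omega) hwZ τ hτ0).trans ?_
    have hw0' : (0 : ℝ) < w := by linarith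
    have e1 : 2 * (M : ℝ) / w + (Nat.log 2 (a : ℤ).toNat : ℕ) / w ≤ 3 * M / w := by
      rw [← add_div]
      apply div_le_div_of_nonneg_right _ (by linarith)
      linarith
    have h3 : 96 / (η * τ) ≤ w := by linarith
    rw [div_le_iff₀ (by positivity)] at h3
    rw [div_le_iff₀ hτ0]
    refine e1.trans ?_
    rw [div_le_iff₀ hw0']
    calc 3 * (M : ℝ) = M / 32 * 96 := by ring
      _ ≤ M / 32 * (w * (η * τ)) := mul_le_mul_of_nonneg_left h3 (by positivity)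
      _ = _ := by ring
  obtain ⟨S1, hS1⟩ : ∃ S1 : Finset (ℤ × ℤ), S1 = (Ioc b₀ (b₀ + M)).biUnion
      (fun b => (B0 b ∪ B1 b ∪ B2 b).image (fun c => (c, b))) := ⟨_, rfl⟩
  obtain ⟨S2, hS2⟩ : ∃ S2 : Finset (ℤ × ℤ), S2 = Icc (-(X : ℤ)) X ×ˢ (F1 ∪ F2) := ⟨_, rfl⟩
  have c1' : (#S1 : ℝ) ≤ M * (η * X / 2) := by
    have e1 : (#S1 : ℝ) ≤ ∑ b ∈ Ioc b₀ (b₀ + M), (#((B0 b ∪ B1 b ∪ B2 b).image (fun c => (c, b))) : ℝ) := by
      rw [hS1]
      exact_mod_cast card_biUnion_le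
    refine e1.trans ?_
    calc _ ≤ ∑ b ∈ Ioc b₀ (b₀ + M), η * X / 2 := by
          refine sum_le_sum fun b hb => ?_
          have g1 : #((B0 b ∪ B1 b ∪ B2 b).image (fun c => (c, b))) ≤ #(B0 b) + #(B1 b) + #(B2 b) := by
            refine card_image_le.trans ?_
            exact (card_union_le _ _).trans (Nat.add_le_add_right (card_union_le _ _) _)
          have g2 : (#((B0 b ∪ B1 b ∪ B2 b).image (fun c => (c, b))) : ℝ) ≤ #(B0 b) + #(B1 b) + #(B2 b) := by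
            exact_mod_cast g1
          have g3 := d0 b hb
          have g4 := d1 b
          have g5 := d2 b
          linarith
      _ = _ := by
          rw [sum_const, Int.card_Ioc, nsmul_eq_mul]
          congr 1
          rw [show (b₀ + M - b₀).toNat = M by omega]
  have c2' : (#S2 : ℝ) ≤ 3 * X * (η * M / 16) := by
    rw [hS2, card_product, Int.card_Icc, show ((X : ℤ) + 1 - -(X : ℤ)).toNat = 2 * X + 1 by omega]
    push_cast
    have g1 : (#(F1 ∪ F2) : ℝ) ≤ #F1 + #F2 := by exact_mod_cast card_union_le F1 F2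
    have g2 : (#(F1 ∪ F2) : ℝ) ≤ η * M / 16 := by
      have : 0 < η * M := by positivity
      linarith
    apply mul_le_mul _ g2 (Nat.cast_nonneg _) (by positivity)
    linarith
  refine ⟨S1 ∪ S2, ?_, ?_⟩
  · have g1 : (#(S1 ∪ S2) : ℝ) ≤ #S1 + #S2 := by exact_mod_cast card_union_le S1 S2
    have g2 : 0 < η * X * M := by positivity
    have g3 : (M : ℝ) * (η * X / 2) = (η * X * M) / 2 := by ring
    have g4 : 3 * (X : ℝ) * (η * M / 16) = 3 * (η * X * M) / 16 := by ring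
    have g5 : η * ((X : ℝ) * M) = η * X * M := by ring
    rw [g3] at c1'
    rw [g4] at c2'
    rw [g5]
    linarith
  · intro c hc b hb hcb
    rw [mem_union, not_or] at hcb
    obtain ⟨n1, n2⟩ := hcb
    have n3 : c ∉ B0 b ∪ B1 b ∪ B2 b := by
      intro h
      apply n1
      rw [hS1, mem_biUnion]
      exact ⟨b, hb, mem_image.2 ⟨c, h, rfl⟩⟩
    have n4 : b ∉ F1 ∪ F2 := by
      intro h
      apply n2
      rw [hS2, mem_product]
      exact ⟨hc, h⟩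
    rw [mem_union, mem_union, not_or, not_or] at n3
    rw [mem_union, not_or] at n4
    obtain ⟨⟨k1, k2⟩, k3⟩ := n3
    obtain ⟨k4, k5⟩ := n4
    obtain ⟨g1, hN⟩ := (hB0 b hb).2 c hc k1
    obtain ⟨h, hh0, hlim⟩ := CF_tendsto a b c haz g1
    have l1 : |LOW a (b ^ 2 - 4 * a * c) w0 Z| ≤ 1 / 8 := by
      by_contra hc'
      push Not at hc'
      exact k2 (by rw [hB1, mem_filter]; exact ⟨hc, hc'⟩)
    have l2 : |LOW a (b ^ 2 - 4 * a * c) w Z| ≤ τ := by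
      by_contra hc'
      push Not at hc'
      exact k3 (by rw [hB2, mem_filter]; exact ⟨hc, hc'⟩)
    have l3 : SB a b w0 Z ≤ 1 / 8 := by
      by_contra hc'
      push Not at hc'
      exact k4 (by rw [hF1, mem_filter]; exact ⟨hb, hc'⟩)
    have l4 : SB a b w Z ≤ τ := by
      by_contra hc'
      push Not at hc'
      exact k5 (by rw [hF2, mem_filter]; exact ⟨hb, hc'⟩)
    have htail : ∀ᶠ N in atTop, |Real.log (CF a b c N) - Real.log (CF a b c Z)| ≤ 3 / l := by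
      filter_upwards [hN, eventually_ge_atTop Z] with N h4 hNZ
      have h5 := CF_compare a b c haz Z Z N (by omega) le_rfl hNZ
      have h6 : LOW a (b ^ 2 - 4 * a * c) Z Z = 0 := by
        unfold LOW
        rw [Ioc_self]
        simp
      rw [h6, abs_zero, zero_add] at h5
      refine h5.trans ?_
      have e1 : 12 / (Z : ℝ) ≤ 1 / l := by
        rw [div_le_div_iff₀ hZ0 hl0, one_mul]
        refine le_trans ?_ hZge
        nlinarith [sq_nonneg l]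
      have e2 : 3 * ((Nat.log 2 (a : ℤ).toNat : ℕ) : ℝ) / Z ≤ 1 / l := by
        rw [div_le_div_iff₀ hZ0 hl0, one_mul]
        refine le_trans ?_ hZge
        have : 3 * ((Nat.log 2 (a : ℤ).toNat : ℕ) : ℝ) * l ≤ 3 * (2 * l) * l := by gcongr
        refine this.trans ?_
        nlinarith [sq_nonneg l]
      have e3 : 3 / l = 1 / l + 1 / l + 1 / l := by ring
      rw [e3]
      linarith
    refine ⟨g1, h, ?_, hlim, ?_⟩
    · have h3 := CF_limit a b c h hh0 hlim w0 (1 / 2) (by norm_num) (by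
        filter_upwards [htail] with N h4
        have h5 := cf_mid a b c w0 Z (by omega) (hww0.trans hwZ)
        have h6 := abs_sub_le (Real.log (CF a b c N)) (Real.log (CF a b c Z)) (Real.log (CF a b c w0))
        have h7 : 12 / (w0 : ℝ) ≤ 12 / 100 := div_le_div_of_nonneg_left (by norm_num) (by norm_num) hw0r
        have h8 : 3 / l ≤ 3 / 100 := div_le_div_of_nonneg_left (by norm_num) (by norm_num) hl
        linarith)
      have h4 := (abs_le.1 h3).2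
      have h5 := CF_ge a b c w0
      linarith
    · have h3 := CF_limit a b c h hh0 hlim w (4 * τ) (by linarith) (by
        filter_upwards [htail] with N h4
        have h5 := cf_mid a b c w Z (by omega) hwZ
        have h6 := abs_sub_le (Real.log (CF a b c N)) (Real.log (CF a b c Z)) (Real.log (CF a b c w))
        have h7 : 12 / (w : ℝ) ≤ τ := by
          rw [div_le_iff₀ (by linarith)]
          have h6 : 24 / τ ≤ w := by linarith
          rw [div_le_iff₀ hτ0] at h6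
          linarith
        have h8 : 3 / l ≤ τ := by
          rw [div_le_iff₀ hl0]
          have h6 : 3 / τ ≤ l := by linarith
          rw [div_le_iff₀ hτ0] at h6
          linarith
        linarith)
      refine h3.trans ?_
      apply mul_le_mul_of_nonneg_right _ hh0.le
      linarith

end Run7.h824.Q
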